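import Pool.Agent.Helper95.HS.GoalsA

/-! # HS, goals B: splitting of the twisted Kähler–Einstein metrics, the bound of the transversal trace -/

open Complex Metric Set Filter Topology MeasureTheory
open scoped ContDiff ComplexConjugate ComplexOrder Manifold Matrix

namespace Pool.Agent.Helper95.HS

open Pool.Agent.Helper95.Lin Pool.Agent.Helper16.Abund Pool.Agent.Helper10.SP
  Pool.Agent.Helper95.RK Pool.Agent.Helper57.HS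

universe u v

/-! ## Curvature identities -/

/-- CRV. Symmetries of the curvature, and its trace. USES: WIRT, LMF.
PROOF. `H x` is Hermitian and `cd k H_ij = cd i H_kj` (`CHF`), so `cdb l H_ij = cdb j H_il` (conjugate). `D_k H = Γ_k H` by
definition, `Db_l H = (D_l H)ᴴ = H Γ_lᴴ`. `Db_l Γ_k = (Db_l D_k H) H⁻¹ - D_k H H⁻¹ (Db_l H) H⁻¹`, so `crv = - (Db_l Γ_k) H`. The
first term `- cd k (cdb l H_ij)` has the symmetries `i ↔ k`, `j ↔ l` (closedness), the second term is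
`∑ (cd k H_ip) (H⁻¹)_pq (cdb l H_qj)` and `cd k H_ip = cd i H_kp`, `cdb l H_qj = cdb j H_ql`. Conjugate symmetry: clear.
Trace: `∑ (H⁻¹)_lk crv_ijkl = ∑ (H⁻¹)_lk crv_klij = - tr ((Db_j Γ_i) H H⁻¹) = - Db_j tr Γ_i` and `tr Γ_i = cd i (log det H)` (Jacobi;
`det H` is real and positive). `cdb j (cd i f) = cd i (cdb j f)`. -/
def S_CRV : Prop := ∀ {n : ℕ} (W : Set (Cn n)), IsOpen W →
  ∀ H : Cn n → Matrix (Fin n) (Fin n) ℂ, CHF H W → (∀ x ∈ W, (H x).PosDef) →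
  (∀ i j k l, ContDiffOn ℝ ∞ (fun x => crv H x i j k l) W) ∧
  (∀ k i j, ContDiffOn ℝ ∞ (fun x => Gam H k x i j) W) ∧
  (∀ i j, ContDiffOn ℝ ∞ (fun x => rho H x i j) W) ∧ CHF (rho H) W ∧ ∀ x ∈ W,
  (∀ i j k, Gam H k x i j = Gam H i x k j) ∧ (∀ k, cdM k H x = Gam H k x * H x) ∧
  (∀ l, cdbM l H x = H x * (Gam H l x)ᴴ) ∧
  (∀ i j k l, crv H x i j k l = (- cdbM l (Gam H k) x * H x) i j) ∧
  (∀ i j k l, crv H x i j k l = crv H x k j i l ∧ crv H x i j k l = crv H x i l k j ∧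
    crv H x j i l k = conj (crv H x i j k l)) ∧
  ∀ i j, ∑ k, ∑ l, (H x)⁻¹ l k * crv H x i j k l = - rho H x i j

/-- `P` is a holomorphic, parallel, `H`-selfadjoint endomorphism field on `W`. -/
structure ParE {n : ℕ} (W : Set (Cn n)) (H P : Cn n → Matrix (Fin n) (Fin n) ℂ) : Prop where
  holo : ∀ i j, DifferentiableOn ℂ (fun x => P x i j) W
  herm : ∀ x ∈ W, P x * H x = H x * (P x)ᴴ
  par : ∀ x ∈ W, ∀ l, cdM l P x = Gam H l x * P x - P x * Gam H l x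

/-- The trace of `P H Q⁻¹`. -/
noncomputable def trP {n : ℕ} (P H Q : Cn n → Matrix (Fin n) (Fin n) ℂ) (x : Cn n) : ℝ :=
  (Matrix.trace (P x * H x * (Q x)⁻¹)).re

/-- `∑ (Q⁻¹) l k tr (A_k P H A_lᴴ Q⁻¹)`, `A` the difference of the connections. -/
noncomputable def AAP {n : ℕ} (P H Q : Cn n → Matrix (Fin n) (Fin n) ℂ) (x : Cn n) : ℂ :=
  ∑ k, ∑ l, (Q x)⁻¹ l k *
    Matrix.trace (Adf H Q k x * (P x * H x) * (Adf H Q l x)ᴴ * (Q x)⁻¹)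

/-- CLP. The Chern-Lu identity for a parallel endomorphism field (`P = 1` is the usual identity).
USES: WIRT, CRV.
PROOF. `B := P H Q⁻¹`, `Γ = Gam H`, `Γ' = Gam Q`, `A = Γ' - Γ`. `conj (tr B) = tr (Q⁻¹ H Pᴴ) = tr (Q⁻¹ P H) = tr B`: real. `D_k B = (Γ_k P -
P Γ_k) H Q⁻¹ + P Γ_k H Q⁻¹ - B Γ'_k = Γ_k B - B Γ'_k`, so `D_k tr B = - tr (A_k B)`. `Db_l P = 0` (holomorphic), `Db_l H = H Γ_lᴴ`,
`Db_l Q⁻¹ = - Γ'_lᴴ Q⁻¹`, so `Db_l B = - P H A_lᴴ Q⁻¹`. `Db_l D_k tr B = tr ((- Db_l A_k) B) + tr (A_k P H A_lᴴ Q⁻¹)` and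
`- Db_l A_k = Rm_kl(Q) - Rm_kl(H)`, `Rm_kl := - Db_l Γ_k`, `(Rm_kl H)_ij = crv_ijkl`. Multiply by `(Q⁻¹)_lk` and sum over `k, l`: this
is `trL Q` (`cd k (cdb l f) = cdb l (cd k f)`). `∑ (Q⁻¹)_lk Rm_kl(Q) = - rho Q Q⁻¹` (`CRV`). `Rm_kl(H)` commutes with `P` (apply
`Db_l` to `par`: `Db_l D_k P = D_k Db_l P = 0`), so `tr (Rm_kl(H) P H Q⁻¹) = tr (P Rm_kl(H) H Q⁻¹) = ∑ (Q⁻¹ P)_ji crv_ijkl`. -/
def S_CLP : Prop := ∀ {n : ℕ} (W : Set (Cn n)), IsOpen W →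
  ∀ H Q P : Cn n → Matrix (Fin n) (Fin n) ℂ, CHF H W → (∀ x ∈ W, (H x).PosDef) → CHF Q W →
  (∀ x ∈ W, (Q x).PosDef) → ParE W H P → ContDiffOn ℝ ∞ (trP P H Q) W ∧ ∀ x ∈ W,
  ((trP P H Q x : ℝ) : ℂ) = Matrix.trace (P x * H x * (Q x)⁻¹) ∧
  (∀ k, cd k (fun y => ((trP P H Q y : ℝ) : ℂ)) x =
    - Matrix.trace (Adf H Q k x * (P x * H x) * (Q x)⁻¹)) ∧
  trL Q (trP P H Q) x = - Matrix.trace (rho Q x * (Q x)⁻¹ * (P x * H x) * (Q x)⁻¹) -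
    crvP H ((Q x)⁻¹ * P x) (Q x)⁻¹ x + AAP P H Q x

/-- SGN. Nonpositive holomorphic sectional curvature and the curvature term (Royden). USES: CRV.
PROOF. `X = ∑ a, e_a e_aᴴ` (spectral theorem), `v_a := conj e_a`, `R(u,v,w,z) := ∑ crv i j k l u_i conj(v_j) w_k conj(z_l)`. Then
`crvP H X X x = ∑ a b, R(v_a, v_a, v_b, v_b)`. Average `R(v,v,v,v)` over `v = ∑ ζ_a v_a`, `ζ_a ∈ {1, I, -1, -I}` independent: only the
terms with `{a, c} = {b, d}` survive, and by the symmetries the average is `2 ∑_(a,b) R(v_a,v_a,v_b,v_b) - ∑_a R(v_a,v_a,v_a,v_a)`.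
It is `≤ 0` (real parts), and `R(v_a,v_a,v_a,v_a) ≤ 0`. (The real part of `R(v_a,v_a,v_b,v_b)` is the number itself by
conjugate symmetry.) -/
def S_SGN : Prop := ∀ {n : ℕ} (W : Set (Cn n)), IsOpen W →
  ∀ H : Cn n → Matrix (Fin n) (Fin n) ℂ, CHF H W → (∀ x ∈ W, (H x).PosDef) → NHC H W →
  ∀ x ∈ W, ∀ X : Matrix (Fin n) (Fin n) ℂ, X.PosSemidef → (crvP H X X x).re ≤ 0

/-- AAPS. Positivity and the Cauchy-Schwarz inequality for the gradient term.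
PROOF. `Q⁻¹ = Sᴴ S`, so `(Q⁻¹)_lk = ∑ a, conj (S a l) S a k`; `Z_a := ∑ k, S a k • A k`. The sum is `∑ a, tr (Z_a Y Z_aᴴ Sᴴ S) =
∑ a, tr ((S Z_a) Y (S Z_a)ᴴ) ≥ 0`. With `Y = y yᴴ`: `tr (Z_a Y Q⁻¹) = tr ((S Z_a y) (S y)ᴴ)`, so by Cauchy-Schwarz for the Frobenius
inner product `|tr (Z_a Y Q⁻¹)|² ≤ tr (S y yᴴ Sᴴ) tr (S Z_a Y Z_aᴴ Sᴴ)`; sum over `a`. -/
def S_AAPS : Prop := ∀ {n : ℕ} (Q Y : Matrix (Fin n) (Fin n) ℂ)
  (A : Fin n → Matrix (Fin n) (Fin n) ℂ), Q.PosDef → Y.PosSemidef →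
  (∑ k, ∑ l, Q⁻¹ l k * Matrix.trace (A k * Y * (A l)ᴴ * Q⁻¹)).im = 0 ∧
  0 ≤ (∑ k, ∑ l, Q⁻¹ l k * Matrix.trace (A k * Y * (A l)ᴴ * Q⁻¹)).re ∧
  (∑ k, ∑ l, Q⁻¹ l k * (Matrix.trace (A k * Y * Q⁻¹) * conj (Matrix.trace (A l * Y * Q⁻¹)))).re ≤
    (Matrix.trace (Y * Q⁻¹)).re *
      (∑ k, ∑ l, Q⁻¹ l k * Matrix.trace (A k * Y * (A l)ᴴ * Q⁻¹)).re

/-! ## Densities -/

/-- SMVN. The sub-mean value inequality on polydiscs.
PROOF. `n = 1`: for a smooth subharmonic function `w` near `closedBall a r`, `π r² w a ≤ ∫_{ball a r} w` (as in `SMV1`, by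
scaling). Induction on `n` with Fubini as in `LPN`. -/
def S_SMVN : Prop := ∀ {n : ℕ} (a : Cn n) (r : ℝ) (U : Set (Cn n)) (w : Cn n → ℝ), 0 < r →
  IsOpen U → closedBall a r ⊆ U → ContDiffOn ℝ ∞ w U →
  (∀ x ∈ U, ∀ i, 0 ≤ lev w x (Pi.single i 1)) →
  (Real.pi * r ^ 2) ^ n * w a ≤ ∫ x in ball a r, w x

/-- KINT. Local integrals of invariant densities. USES: SWAP, LFIN, PUE.
PROOF. `S_SWAP` for `ρ` with `f := 1_C`, `g := κ`: `∫_C ρ = ∫ 1_C AS(κ) ρ = ∫ κ AS(1_C) ρ`, and `AS(1_C) x`, the number of arrows from `x`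
to `C`, is bounded by a constant `B` for `x ∈ tsupport κ` (`LFIN` and a finite cover). -/
def S_KINT : Prop := ∀ {n : ℕ} (T : Set (Cn n)) {G : Type u} [Group G]
  (R : G → Cn n → Cn n → Prop), Et T R → ∀ κ, IsPUE T R κ → ∀ C ⊆ T, IsCompact C →
  ∃ B : ℝ, 0 ≤ B ∧ ∀ ρ : Cn n → ℝ, ContinuousOn ρ T → (∀ x ∈ T, 0 ≤ ρ x) →
  (∀ U τ, Arr R U τ → ∀ x ∈ U, ρ x = ρ (τ x) * ‖(fderiv ℂ τ x).det‖ ^ 2) →
  ∫ x in C, ρ x ≤ B * ∫ x in T, κ x * ρ x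

/-- DENS. The upper bound of densities. USES: WIRT, LMF, CHN, DETI, KETP, KINT, SMVN.
PROOF. `w := ld Q - ld H` is invariant (`KETP`). Let `C` be the compact set of `Et.coc`, `r > 0` such that the closed
`2 r`-neighbourhood `C'` of `C` is in `T`, and `b ≥ 0` with `a (H x i i).re ≤ 4 b` on `C'`. For `x₀ ∈ C`: `w₁(x) := w x + b ∑ i,
|x_i - x₀_i|²` has `lev w₁ x (Pi.single i 1) ≥ - 4 b + 4 b = 0` near `closedBall x₀ r`, so also `exp w₁` (`CHN`); `SMVN`: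
`(π r²)^n exp (w x₀) ≤ ∫_{ball x₀ r} exp w₁ ≤ exp (b n r²) ∫_{C'} det Q/det H ≤ C₁ ∫_{C'} det Q ≤ C₁ B ∫ κ det Q` (`KINT`; `det Q` is an
invariant density by `DETI`). Every point of `T` has an arrow to `C` and `w` is invariant. -/
def S_DENS : Prop := ∀ {n : ℕ} (T : Set (Cn n)) {G : Type u} [Group G]
  (R : G → Cn n → Cn n → Prop) (H : Cn n → Matrix (Fin n) (Fin n) ℂ), KEt T R H →
  ∀ κ, IsPUE T R κ → ∀ a : ℝ, ∃ K : ℝ, 0 < K ∧ ∀ Q : Cn n → Matrix (Fin n) (Fin n) ℂ,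
  KEt T R Q → (∀ x ∈ T, ((a : ℂ) • H x + LM (fun y => ld Q y - ld H y) x).PosSemidef) →
  DensLe T κ H K Q

/-- RHOB. The Ricci form is bounded. USES: KETP, CRV, LMF, WCH, DETI.
PROOF. `rho H` is a continuous Hermitian field, invariant: `ld H x = ld H (τ x) + log |det Dτ|²` (`DETI`) and
`LM (log |det Dτ|²) = 0`, `LM (f ∘ τ) = J (LM f ∘ τ) Jᴴ` (`WCH`). On the compact set `C` of `Et.coc` there is `a` with `± rho H ≤ a H`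
(as in `CMP`); by invariance it holds on `T`. -/
def S_RHOB : Prop := ∀ {n : ℕ} (T : Set (Cn n)) {G : Type u} [Group G]
  (R : G → Cn n → Cn n → Prop) (H : Cn n → Matrix (Fin n) (Fin n) ℂ), KEt T R H →
  InvH R (rho H) ∧ ∃ a : ℝ, 0 < a ∧ ∀ x ∈ T,
    ((a : ℂ) • H x - rho H x).PosSemidef ∧ ((a : ℂ) • H x + rho H x).PosSemidef

/-- TRI. Traces are invariant functions. USES: DETI, ARRB, WIRT, LMID.
PROOF. For a local arrow `τ` with `J p i = (fderiv ℂ τ x (Pi.single i 1)) p`: `Y x = Jᵗ (Y (τ x)) J̄`, the same for `Q`, so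
`Y x (Q x)⁻¹ = Jᵗ (Y (τ x) (Q (τ x))⁻¹) J⁻ᵗ`. (2) `LMID`, third item (`InvF` implies `DInv`). -/
def S_TRI : Prop := ∀ {n : ℕ} (T : Set (Cn n)) {G : Type u} [Group G]
  (R : G → Cn n → Cn n → Prop) (Q : Cn n → Matrix (Fin n) (Fin n) ℂ), KEt T R Q →
  (∀ Y : Cn n → Matrix (Fin n) (Fin n) ℂ, (∀ i j, ContDiffOn ℝ ∞ (fun x => Y x i j) T) →
    InvH R Y → InvF T R fun x => (Matrix.trace (Y x * (Q x)⁻¹)).re) ∧
  ∀ κ, IsPUE T R κ → ∀ w, InvF T R w → ∫ x in T, κ x * (Q x).det.re * (trL Q w x).re = 0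

/-- NULL0. A nonnegative invariant function with integral `0` vanishes. USES: DETI.
PROOF. `κ det Q f ≥ 0` is continuous with integral `0` over the open set `T`, so it vanishes on `T`; `det Q > 0`, so `f y = 0` if
`κ y > 0`; every `x ∈ T` has an arrow to such a `y` (`IsPUE.sum`) and `f` is invariant. -/
def S_NULL0 : Prop := ∀ {n : ℕ} (T : Set (Cn n)) {G : Type u} [Group G]
  (R : G → Cn n → Cn n → Prop) (Q : Cn n → Matrix (Fin n) (Fin n) ℂ), KEt T R Q →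
  ∀ κ, IsPUE T R κ → 0 < vol T κ Q ∧ ∀ f, InvF T R f → (∀ x ∈ T, 0 ≤ f x) →
  ∫ x in T, κ x * (Q x).det.re * f x ≤ 0 → ∀ x ∈ T, f x = 0

/-! ## The parallel projector -/

/-- PARF. Facts on the parallel projector. USES: WIRT, CRV, KETP.
PROOF. (1) `1 - P`: clear. (2) `D_l (P H) = (Γ_l P - P Γ_l) H + P Γ_l H = Γ_l P H`, so `cd l (P H)_ij = ∑ (Γ_l)_im (P H)_mj` and
`(Γ_l)_im = (Γ_i)_lm` (`CRV`); smooth (holomorphic times smooth), Hermitian by `herm`. (3) `P H = P P H = P H Pᴴ`. (4) `rho_kl =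
- ∑ (H⁻¹)_ji crv_ijkl` (`CRV` with the symmetries), `∑ k, P m k crv i j k l = ∑ k, P m k crv k j i l = 0` by `null`. (5) `null`.
(6) `P` is a projector of rank `k` (trace): `det (1 + t P) = (1 + t)^k` (conjugate to a diagonal matrix, or
`Matrix.det_one_add_mul_comm` with `P = U V`, `V U = 1_k`). (7) `(1-P) H = (1-P) H (1-P)ᴴ ≥ 0` is not `0` (trace of `1 - P` is `n - k`). -/
def S_PARF : Prop := ∀ {n : ℕ} (T : Set (Cn n)) {G : Type u} [Group G]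
  (R : G → Cn n → Cn n → Prop) (H : Cn n → Matrix (Fin n) (Fin n) ℂ), KEt T R H →
  ∀ (k : ℕ) (P : Cn n → Matrix (Fin n) (Fin n) ℂ), ParP k T R H P →
  (ParE T H P ∧ ParE T H fun x => 1 - P x) ∧
  (CHF (fun x => P x * H x) T ∧ CHF (fun x => (1 - P x) * H x) T ∧
    InvH R (fun x => P x * H x) ∧ InvH R fun x => (1 - P x) * H x) ∧
  (∀ x ∈ T, (P x * H x).PosSemidef ∧ ((1 - P x) * H x).PosSemidef) ∧
  (∀ x ∈ T, P x * rho H x = 0) ∧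
  (∀ x ∈ T, ∀ X Y : Matrix (Fin n) (Fin n) ℂ, crvP H (X * P x) Y x = 0) ∧
  (∀ x ∈ T, ∀ t : ℂ, (1 + t • P x).det = (1 + t) ^ k) ∧
  (k < n → ∀ x ∈ T, ∀ X : Matrix (Fin n) (Fin n) ℂ, X.PosDef →
    0 < (Matrix.trace ((1 - P x) * H x * X⁻¹)).re) ∧ (k = n → ∀ x ∈ T, P x = 1)

/-- `VN(s) = ∫ det (ρ + P H + s (1 - P) H)`. -/
noncomputable def VN {n : ℕ} (T : Set (Cn n)) (κ : Cn n → ℝ)
    (H P : Cn n → Matrix (Fin n) (Fin n) ℂ) (s : ℝ) : ℝ :=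
  vol T κ fun x => rho H x + P x * H x + (s : ℂ) • ((1 - P x) * H x)

/-- MOMP. Volumes. USES: PARF, MOMV, KETP, CRV, RHOB.
PROOF. `w := ld Q - ld H` (`InvF` by `KETP`), `LM w = rho Q - rho H = Q - ε H - rho H`. `MOMV` with `Y = rho H + ε H + t (P H)` resp.
`rho H + ε H + t (1 - P) H` (closed invariant Hermitian fields: `CRV`, `RHOB`, `PARF`): `pert Y w = Q + t P H` resp. `Q + t (1-P) H`.
`rho H + ε H + t P H = (1 + (t/ε) P) (rho H + ε H)` for the first (`P rho = 0`), so `det = (1 + t/ε)^k det (rho H + ε H)`.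
`rho H + ε P H + s (1 - P) H = (1 + (ε - 1) P) (rho H + P H + s (1 - P) H)`, so `det = ε^k det (..)`. -/
def S_MOMP : Prop := ∀ {n : ℕ} (T : Set (Cn n)) {G : Type u} [Group G]
  (R : G → Cn n → Cn n → Prop) (H : Cn n → Matrix (Fin n) (Fin n) ℂ), KEt T R H →
  ∀ κ, IsPUE T R κ → ∀ (k : ℕ) (P : Cn n → Matrix (Fin n) (Fin n) ℂ), ParP k T R H P →
  ∀ (ε : ℝ) (Q : Cn n → Matrix (Fin n) (Fin n) ℂ), 0 < ε → TKE T R H ε Q → ∀ t : ℝ, 0 ≤ t →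
  vol T κ (fun x => Q x + (t : ℂ) • (P x * H x)) = (1 + t / ε) ^ k * vol T κ Q ∧
  vol T κ (fun x => Q x + (t : ℂ) • ((1 - P x) * H x)) = ε ^ k * VN T κ H P (ε + t)

/-- VNB. Bounds for `VN`. USES: PARF.
PROOF. `det (rho H + s H) = s^k det (rho H + P H + s (1 - P) H)` for `s ≠ 0` (as in `MOMP`), so `VolP T κ H s = s^k VN(s)` for `s > 0`.
`VN` is continuous (a polynomial in `s`: integrals of continuous functions with compact support in `T`), so `ParP.vol` gives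
`VN(0) = r > 0`; continuity on `[0, 3]`. -/
def S_VNB : Prop := ∀ {n : ℕ} (T : Set (Cn n)) {G : Type u} [Group G]
  (R : G → Cn n → Cn n → Prop) (H : Cn n → Matrix (Fin n) (Fin n) ℂ), KEt T R H →
  ∀ κ, IsPUE T R κ → ∀ (k : ℕ) (P : Cn n → Matrix (Fin n) (Fin n) ℂ), ParP k T R H P →
  ∃ (ε₀ c C : ℝ), 0 < ε₀ ∧ ε₀ ≤ 1 ∧ 0 < c ∧ (∀ s, 0 < s → s ≤ ε₀ → c ≤ VN T κ H P s) ∧
    ∀ s, 0 ≤ s → s ≤ 3 → VN T κ H P s ≤ C

/-- ESGE. The average of `ε tr (P H Q⁻¹)` is at least `k`. USES: PARF, MOMP, TRC, TRI, NULL0.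
PROOF. `s := ε trP P H Q ≥ 0` is continuous on `T`, bounded by `B` on `tsupport κ`. For `0 < t ≤ 1/(B + 1)`: `(1 + k t) vol Q ≤ (1 + t)^k
vol Q = vol (Q + t ε P H) ≤ ∫ κ det Q (1 + t s + t² s²)` (`MOMP` with `t ε`; `TRC`). Subtract `vol Q`, divide by `t`, `t → 0`. -/
def S_ESGE : Prop := ∀ {n : ℕ} (T : Set (Cn n)) {G : Type u} [Group G]
  (R : G → Cn n → Cn n → Prop) (H : Cn n → Matrix (Fin n) (Fin n) ℂ), KEt T R H →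
  ∀ κ, IsPUE T R κ → ∀ (k : ℕ) (P : Cn n → Matrix (Fin n) (Fin n) ℂ), ParP k T R H P →
  ∀ (ε : ℝ) (Q : Cn n → Matrix (Fin n) (Fin n) ℂ), 0 < ε → TKE T R H ε Q →
  k * vol T κ Q ≤ ∫ x in T, κ x * (Q x).det.re * (ε * trP P H Q x)

/-- ALGS. The algebra of the splitting.
PROOF. `D := P - ε P H Q⁻¹`. `tr (D H Dᴴ H⁻¹) = tr P - 2 ε tr (P H Q⁻¹) + ε² tr (H Q⁻¹ P H Q⁻¹)`, using `Pᴴ H⁻¹ = H⁻¹ P` and `P² = P`.
With `H = h hᴴ`: it is `tr ((h⁻¹ D h) (h⁻¹ D h)ᴴ) ≥ 0`, and `= 0` iff `D = 0`; then `P Q = ε P H`. -/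
def S_ALGS : Prop := ∀ {n : ℕ} (H Q P : Matrix (Fin n) (Fin n) ℂ), H.PosDef → Q.PosDef →
  P * P = P → P * H = H * Pᴴ → ∀ ε : ℝ,
  0 ≤ (Matrix.trace P).re - 2 * (ε * (Matrix.trace (P * H * Q⁻¹)).re) +
    ε ^ 2 * (Matrix.trace (H * Q⁻¹ * (P * H) * Q⁻¹)).re ∧
  ((Matrix.trace P).re - 2 * (ε * (Matrix.trace (P * H * Q⁻¹)).re) +
    ε ^ 2 * (Matrix.trace (H * Q⁻¹ * (P * H) * Q⁻¹)).re = 0 → P * Q = (ε : ℂ) • (P * H))

/-- SPLITT. `S_SPLIT` of `Helper57/HS/DefsB.lean`. USES: PUE, PARF, CLP, AAPS, ALGS, ESGE, TRI, NULL0,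
KETP.
PROOF. `κ` from `PUE`, `s' := trP P H Q`, `s := ε s'`. `CLP` with `rho Q = Q - ε H` and `PARF` (5): `trL Q s' = - s' + ε tr (H Q⁻¹ P H Q⁻¹) +
AAP`. So `trL Q s = (s - k) + δ + ε AAP`, `δ := k - 2 s + ε² tr (H Q⁻¹ P H Q⁻¹) ≥ 0` (`ALGS`), `AAP ≥ 0` (`AAPS` with `Y = P H`). `f := δ + ε
AAP = trL Q s - (s - k)` is invariant (`TRI`, `KETP`) and `∫ κ det Q f = - ∫ κ det Q (s - k) ≤ 0` (`TRI` (2), `ESGE`). `NULL0`: `f = 0`, so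
`δ = 0`, and `ALGS`. -/
def S_SPLITT : Prop := S_SPLIT.{u}

/-- LOGS. The differential inequality for the transversal trace. USES: PARF, CLP, AAPS, SGN, CHN, TRI,
TRC.
PROOF. `P' := 1 - P`, `S := trP P' H Q > 0` (`PARF` (7)). `CLP` for `P'` and `rho Q = Q - ε H`: `trL Q S = - S + ε tr (H Q⁻¹ P' H Q⁻¹) -
crvP H (Q⁻¹ P') Q⁻¹ + AAP P' H Q`. `crvP H (Q⁻¹ P') Q⁻¹ = crvP H Q⁻¹ Q⁻¹ - crvP H (Q⁻¹ P) Q⁻¹ = crvP H Q⁻¹ Q⁻¹`, real part `≤ 0` (`SGN`).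
`tr (H Q⁻¹ P' H Q⁻¹) ≥ 0` (`P' H ≥ 0`). So `trL Q S ≥ - S + AAP`. `CHN` for `F = log`: `trL Q (log S) = (trL Q S)/S - S⁻² ∑ (Q⁻¹)_lk cd k S
conj (cd l S) ≥ (- S + AAP)/S - AAP/S = -1` (`AAPS` with `Y = P' H`). -/
def S_LOGS : Prop := ∀ {n : ℕ} (T : Set (Cn n)) {G : Type u} [Group G]
  (R : G → Cn n → Cn n → Prop) (H : Cn n → Matrix (Fin n) (Fin n) ℂ), KEt T R H → NHC H T →
  ∀ (k : ℕ) (P : Cn n → Matrix (Fin n) (Fin n) ℂ), ParP k T R H P → k < n →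
  ∀ (ε : ℝ) (Q : Cn n → Matrix (Fin n) (Fin n) ℂ), 0 < ε → TKE T R H ε Q →
  InvF T R (trP (fun x => 1 - P x) H Q) ∧ (∀ x ∈ T, 0 < trP (fun x => 1 - P x) H Q x) ∧
  ∀ x ∈ T, -1 ≤ (trL Q (fun y => Real.log (trP (fun x => 1 - P x) H Q y)) x).re

/-- ESLE. The average of the transversal trace is bounded. USES: PARF, MOMP, VNB, TRC.
PROOF. `ε₀, c, C` from `VNB`. `vol Q = ε^k VN(ε) ≥ c ε^k` (`MOMP` with `t = 0`), `vol Q + ∫ κ det Q S ≤ vol (Q + (1 - P) H) = ε^k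
VN(ε + 1) ≤ C ε^k` (`TRC` with `t = 1`). So `∫ κ det Q S ≤ (C/c) vol Q`. -/
def S_ESLE : Prop := ∀ {n : ℕ} (T : Set (Cn n)) {G : Type u} [Group G]
  (R : G → Cn n → Cn n → Prop) (H : Cn n → Matrix (Fin n) (Fin n) ℂ), KEt T R H →
  ∀ κ, IsPUE T R κ → ∀ (k : ℕ) (P : Cn n → Matrix (Fin n) (Fin n) ℂ), ParP k T R H P →
  ∃ (ε₀ C : ℝ), 0 < ε₀ ∧ ε₀ ≤ 1 ∧ ∀ (ε : ℝ) (Q : Cn n → Matrix (Fin n) (Fin n) ℂ), 0 < ε →
  ε ≤ ε₀ → TKE T R H ε Q →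
  ∫ x in T, κ x * (Q x).det.re * trP (fun x => 1 - P x) H Q x ≤ C * vol T κ Q

/-- SMALLT. `S_SMALL` of `Helper57/HS/DefsB.lean`. USES: `S_AYT` of `Helper57/HS/Defs.lean`, PUE,
PARF, SBG, DENS, RHOB, LOGS, ESLE, NULL0, KETP.
PROOF. If `k = n` (in particular if `n = 0`) `1 - P = 0`; any metric from `AYT` works. Let `k < n`, `κ` from `PUE`, `ε₀, C` from `ESLE`.
For `ε ≤ ε₀ ≤ 1` and `TKE T R H ε Q` put `φ := ld Q - ld H` (`KETP`): `LM φ = Q - ε H - rho H`, so `Q - LM φ = rho H + ε H ≤ (a + 1) H` and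
`(a + 1) H + LM φ ≥ 0` (`RHOB`). `DENS`: `DensLe T κ H K Q`. `SBG` for `S := trP (1 - P) H Q` (`LOGS`): `S x vol Q ≤ C' ∫ κ det Q S ≤ C' C
vol Q` (we may take `C' ≥ 0`), so `S ≤ C' C =: B` on `T`, `B` independent of `ε`. Choose `ε ≤ ε₀` with `ε B < 1` and `Q` from `AYT`. -/
def S_SMALLT : Prop := S_SMALL.{u}

/-- POSTT. `S_POST` of `Helper57/HS/DefsB.lean`. USES: `S_AYT`, `S_COREP`, PARF, SPLITT, SMALLT, LMF, CRV,
DETI.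
PROOF. `k, P` from `COREP`, `ε, Q` from `SMALLT`, `P Q = ε P H` from `SPLITT`. `A := rho Q = LM (ld Q) = Q - ε H` is Hermitian with `P A =
0`, so `A = N A Nᴴ`, `N := 1 - P`. For `e : Cn n` put `f := Nᵀ e`: `lev (ld Q) x e = hermi A e e = hermi A f f = hermi Q f f - ε hermi H
f f` and `Nᵀ f = f`, so `hermi H f f = hermi (N H Nᴴ) f f ≤ tr (N H Q⁻¹) hermi Q f f` (`Y ≤ tr (Y Q⁻¹) Q` for `Y ≥ 0`; `N H Nᴴ = N H`). So
`lev ≥ (1 - c) hermi Q f f ≥ 0` with `c = ε tr (N H Q⁻¹) < 1`, and `= 0` iff `f = 0`. The submodule `{e | Nᵀ e = 0}` is the range of the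
projector `Pᵀ`, of dimension `tr P = k`. If `k = n`: `P = 1` and `null`. -/
def S_POSTT : Prop := S_POST.{u}

end Pool.Agent.Helper95.HS
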