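import Pool.Agent.Helper95.HS.DefsA
import Pool.Agent.Helper57.HS.DefsB

/-! # HS, goals A: comparison of potentials in a fixed class (CLAIM A) and the bound of `S` -/

open Complex Metric Set Filter Topology MeasureTheory
open scoped ContDiff ComplexConjugate ComplexOrder Manifold Matrix

namespace Pool.Agent.Helper95.HS

open Pool.Agent.Helper95.Lin Pool.Agent.Helper16.Abund Pool.Agent.Helper10.SP
  Pool.Agent.Helper57.HS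

universe u v

/-! ## Elementary facts -/

/-- MAXF. Maxima of invariant functions. USES: LMF (`S_LMF`).
PROOF. `C` from `Et.coc`; `f` is continuous on the compact set `C` (nonempty since `T` is), attains its maximum
over `C` at `x`; every `y ∈ T` has an arrow to `C`, so `f y ≤ f x` for all `y ∈ T`. At `x` for every `e`
`lev f x e ≤ 0` (second derivative test on the lines `t ↦ x + t e`, `x + t I e`: a smooth function with a local maximum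
has nonpositive second derivative), `lev f x e = hermi (LM f x) e e` and `LM f x` is Hermitian (`LMF`); `PosSemidef`
of `-LM f x`: `star y ⬝ᵥ A *ᵥ y = hermi A (conj y) (conj y)`. -/
def S_MAXF : Prop := ∀ {n : ℕ} (T : Set (Cn n)) {G : Type u} [Group G]
  (R : G → Cn n → Cn n → Prop), Et T R → ∀ f : Cn n → ℝ, InvF T R f →
  ∃ x ∈ T, (∀ y ∈ T, f y ≤ f x) ∧ (- LM f x).PosSemidef

/-- TRC. Traces and determinants.
PROOF. `Q = S Sᴴ` with `S` invertible (`Matrix.PosDef` square root), `C := S⁻¹ Y S⁻ᴴ` is Hermitian with real eigenvalues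
`μ_i`, `tr (Q⁻¹ Y) = tr C = ∑ μ_i`, `det (Q + t Y) = det Q ∏ (1 + t μ_i)`, `det Y = det Q ∏ μ_i`. (1) clear. (2) AM-GM
(`Real.inner_le_nnorm_mul_nnorm`.. or `Real.geom_mean_le_arith_mean`). (3) `μ_i ≥ 1`. (4) `1 + t s ≤ ∏ (1 + t μ_i) ≤
exp (t s)` and `exp x ≤ 1 + x + x ^ 2` for `0 ≤ x ≤ 1` (`Real.exp_bound_div_one_sub_of_interval` or
`Real.abs_exp_sub_one_sub_id_le`). -/
def S_TRC : Prop := ∀ {n : ℕ} (Q Y : Matrix (Fin n) (Fin n) ℂ), Q.PosDef →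
  (Y.IsHermitian → (Matrix.trace (Q⁻¹ * Y)).im = 0 ∧ Y.det.im = 0 ∧ 0 < Q.det.re) ∧
  (Y.PosSemidef → 0 ≤ (Matrix.trace (Q⁻¹ * Y)).re ∧ 0 ≤ Y.det.re) ∧
  (Y.PosDef → (n : ℝ) * (Y.det.re / Q.det.re) ^ ((1 : ℝ) / n) ≤ (Matrix.trace (Q⁻¹ * Y)).re) ∧
  ((Y - Q).PosSemidef → Q.det.re ≤ Y.det.re) ∧
  ∀ t : ℝ, 0 ≤ t → Y.PosSemidef →
    Q.det.re * (1 + t * (Matrix.trace (Q⁻¹ * Y)).re) ≤ (Q + (t : ℂ) • Y).det.re ∧
    (t * (Matrix.trace (Q⁻¹ * Y)).re ≤ 1 → (Q + (t : ℂ) • Y).det.re ≤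
      Q.det.re * (1 + t * (Matrix.trace (Q⁻¹ * Y)).re + (t * (Matrix.trace (Q⁻¹ * Y)).re) ^ 2))

/-- CHN. The chain rule for the Levi matrix. USES: WIRT (`S_WIRT`).
PROOF. `cd j (F ∘ u) = (F' ∘ u) cd j u` and the same for `cdb` (chain rule for `fderiv ℝ`); apply it twice with the
product rule: `cd j (cdb k (F ∘ u)) = cd j ((F' ∘ u) cdb k u) = (F' ∘ u) cd j (cdb k u) + (F'' ∘ u) cd j u cdb k u`, and
`cdb k u = conj (cd k u)` for real `u`. (The first identity holds on the open set `W`, so it can be differentiated.) -/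
def S_CHN : Prop := ∀ {n : ℕ} (W : Set (Cn n)), IsOpen W → ∀ (w : Cn n → ℝ) (F : ℝ → ℝ)
  (J : Set ℝ), ContDiffOn ℝ ∞ w W → IsOpen J → ContDiffOn ℝ ∞ F J → MapsTo w W J →
  ContDiffOn ℝ ∞ (fun y => F (w y)) W ∧ ∀ x ∈ W,
  (∀ j, cd j (fun y => ((F (w y) : ℝ) : ℂ)) x =
    ((deriv F (w x) : ℝ) : ℂ) * cd j (fun y => ((w y : ℝ) : ℂ)) x) ∧
  ∀ j k, LM (fun y => F (w y)) x j k = ((deriv F (w x) : ℝ) : ℂ) * LM w x j k +
    ((deriv (deriv F) (w x) : ℝ) : ℂ) * (cd j (fun y => ((w y : ℝ) : ℂ)) x *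
      conj (cd k (fun y => ((w y : ℝ) : ℂ)) x))

/-- CMP. Comparison of two invariant metrics.
PROOF. `C` from `Et.coc`. On the compact set `C × {e | ‖e‖ = 1}` the continuous function `(hermi (Q x) e e).re /
(hermi (H x) e e).re` is positive and has a positive minimum `c` (`n = 0` is trivial). For `x ∈ T` take an arrow to
`C` (`Et.coc`, a local arrow `τ` by `Et.loc`) and use the invariance `KEt.inv` of both metrics (with `e = fderiv ℂ τ x u`).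
`PosSemidef`: `star y ⬝ᵥ A *ᵥ y = hermi A (conj y) (conj y)`. -/
def S_CMP : Prop := ∀ {n : ℕ} (T : Set (Cn n)) {G : Type u} [Group G]
  (R : G → Cn n → Cn n → Prop) (H Q : Cn n → Matrix (Fin n) (Fin n) ℂ), KEt T R H → KEt T R Q →
  ∃ c > 0, ∀ x ∈ T, (Q x - ((c : ℝ) : ℂ) • H x).PosSemidef

/-- KETP. The perturbed metric and the logarithms of densities. USES: LMF, WCH, DETI, ARRB.
PROOF. (1) `LM u` is smooth, Hermitian and closed (`S_LMF`); invariance: for a local arrow `τ` on `U`, `u ∘ τ = u` on `U`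
(`InvF`), so `LM u x = J (LM u (τ x)) J^*` (`S_WCH`, last item of the first part), which is `hermi (LM u (τ x)) (Dτ a) (Dτ b)
= hermi (LM u x) a b`. (2) `det H x = det H (τ x) |det Dτ|²` for both metrics (`DETI`), smoothness from `DETI`. (3) `CHF`,
`InvH` for `H` itself from `KEt`. -/
def S_KETP : Prop := ∀ {n : ℕ} (T : Set (Cn n)) {G : Type u} [Group G]
  (R : G → Cn n → Cn n → Prop), Et T R →
  (∀ (Y : Cn n → Matrix (Fin n) (Fin n) ℂ) (w : Cn n → ℝ), CHF Y T → InvH R Y → InvF T R w →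
    CHF (pert Y w) T ∧ InvH R (pert Y w) ∧ ((∀ x ∈ T, (pert Y w x).PosDef) → KEt T R (pert Y w))) ∧
  (∀ H Q : Cn n → Matrix (Fin n) (Fin n) ℂ, KEt T R H → KEt T R Q →
    InvF T R (fun x => ld Q x - ld H x) ∧ CHF H T ∧ InvH R H) ∧
  ∀ (H : Cn n → Matrix (Fin n) (Fin n) ℂ) (w : Cn n → ℝ), KEt T R H → InvF T R w →
    InvF T R (fun x => (trL H w x).re) ∧ ∀ x ∈ T, (trL H w x).im = 0

/-- MOMV. The volume depends only on the class. USES: WIRT, LMF, WCH, DETI, DIVC, KETP, PUE.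
PROOF. For real `t` put `Z_t := Y + t LM u` (closed, invariant, Hermitian) and `f t := ∫ κ det Z_t`, a polynomial in `t`.
`f' t = ∫ κ ∑ j k, (adj Z_t) k j (LM u) j k` (Jacobi) `= ∫ κ ∑ j, cd j (∑ k, (adj Z_t) k j cdb k u)` because
`∑ j, cd j ((adj Z) k j) = 0` for a closed `Z` (the cofactor identity `PHDIV` of Lin, or directly: where `det Z ≠ 0` it is
the last item of `DETI`; it is a polynomial identity in the entries and first derivatives of `Z`: apply it to `Z + s 1` and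
let `s → 0`). The vector field `Y^j := ∑ k, (adj Z_t) k j cdb k u` satisfies the transformation law of `S_DIVC`
(`adj (J Z J^*) = adj(J^*) adj Z adj J`, `LM`, `cdb` as in `WCH`; `DIVC` is for a `KEt` structure, which exists by hypothesis).
So `f' = 0`, `f 1 = f 0`. -/
def S_MOMV : Prop := ∀ {n : ℕ} (T : Set (Cn n)) {G : Type u} [Group G]
  (R : G → Cn n → Cn n → Prop) (H : Cn n → Matrix (Fin n) (Fin n) ℂ), KEt T R H →
  ∀ κ, IsPUE T R κ → ∀ (Y : Cn n → Matrix (Fin n) (Fin n) ℂ) (w : Cn n → ℝ), CHF Y T →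
  InvH R Y → InvF T R w → vol T κ (pert Y w) = vol T κ Y

/-! ## The existence theorem -/

/-- AYGB. Aubin-Yau with a parameter. USES: `S_AYG` of `Helper57/HS/DefsB.lean`, KETP.
PROOF. `S_AYG` for `X := β H` (a `KEt` metric, positive multiple of `H`), `H` and `f + n log β`: `u` with `det (β H + LM u) =
exp (u + f + n log β) det H = β^n exp (u + f) det H`. Put `w := u / β`: `LM w = β⁻¹ LM u` on `T`, `β (H + LM w) = β H + LM u`,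
`det (H + LM w) = exp (β w + f) det H`; take logarithms (`0 < (H x).det.re`). -/
def S_AYGB : Prop := ∀ {n : ℕ} (T : Set (Cn n)) {G : Type u} [Group G]
  (R : G → Cn n → Cn n → Prop) (H : Cn n → Matrix (Fin n) (Fin n) ℂ), KEt T R H →
  ∀ f : Cn n → ℝ, InvF T R f → ∀ β : ℝ, 0 < β → ∃ w, Pot T R H w ∧
    ∀ x ∈ T, ld (pert H w) x = ld H x + β * w x + f x

/-- AYX. The same for a field `χ` with a potential. USES: AYGB, KETP.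
PROOF. `Q := pert χ φ` is a metric (`KETP`). `AYGB` for `Q`, `β` and `f' := ld H - ld Q + f + β φ` (`InvF` by `KETP`): `w'`. Put
`w := φ + w'`; `LM (φ + w') = LM φ + LM w'` on `T`. -/
def S_AYX : Prop := ∀ {n : ℕ} (T : Set (Cn n)) {G : Type u} [Group G]
  (R : G → Cn n → Cn n → Prop) (H : Cn n → Matrix (Fin n) (Fin n) ℂ) (a : ℝ)
  (χ : Cn n → Matrix (Fin n) (Fin n) ℂ) (φ : Cn n → ℝ), Chi T R H a χ → Pot T R χ φ →
  ∀ f : Cn n → ℝ, InvF T R f → ∀ β : ℝ, 0 < β → ∃ w, Pot T R χ w ∧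
    ∀ x ∈ T, ld (pert χ w) x = ld H x + β * w x + f x

/-! ## The envelope -/

/-- VENV. A smooth substitute for the envelope. USES: MAXF, TRC, CMP, KETP, AYX.
PROOF. `φ' := φ - max φ ≤ 0` is a potential, `δ > 0` with `pert χ φ ≥ δ H` (`CMP`), `C₀ := max (- φ')`, `t ∈ (0, 1)` with
`t C₀ ≤ 1/2`; `β > 0` so large that `n log a ≤ β` and `- n log (t δ) ≤ β/2`. `v` := solution of `AYX` for `β`, `f = 0`:
`ld (pert χ v) = ld H + β v`. (1) At a maximum `x` of `v` (`MAXF`) `pert χ v x ≤ χ x ≤ a H x`, so `det (pert χ v) ≤ a^n det H`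
(`TRC`), `β v x ≤ n log a ≤ β`. (2) Let `ψ ≤ 0` be a potential, `u_t := (1 - t) ψ + t φ'`, `pert χ u_t = (1 - t) pert χ ψ + t pert χ
φ' ≥ t δ H`. At a maximum `x` of `u_t - v`: `LM u_t ≤ LM v`, so `t δ H ≤ pert χ v` at `x`, `(t δ)^n det H ≤ det (pert χ v) =
exp (β v) det H`, `v x ≥ n log (t δ)/β ≥ - 1/2`. So `u_t y - v y ≤ u_t x - v x ≤ 1/2` for all `y`, and `ψ = u_t + t (ψ - φ') ≤
u_t + t C₀ ≤ v + 1`. (`n = 0`: all determinants are `1`; works as well.) -/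
def S_VENV : Prop := ∀ {n : ℕ} (T : Set (Cn n)) {G : Type u} [Group G]
  (R : G → Cn n → Cn n → Prop) (H : Cn n → Matrix (Fin n) (Fin n) ℂ) (a : ℝ)
  (χ : Cn n → Matrix (Fin n) (Fin n) ℂ) (φ : Cn n → ℝ), Chi T R H a χ → 1 ≤ a →
  Pot T R χ φ → ∃ v, Env T R χ v

/-- TAU. A smooth approximation of the positive part.
PROOF. `τ x = (x + √(x² + η²)) / 2`. -/
def S_TAU : Prop := ∀ η : ℝ, 0 < η → ∃ τ : ℝ → ℝ, ContDiff ℝ ∞ τ ∧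
  ∀ x, 0 < τ x ∧ x ≤ τ x ∧ τ x ≤ max x 0 + η

/-- GPT. The comparison with the auxiliary Monge-Ampère equation. USES: MAXF, TRC, CHN, KETP, MOMV,
AYX, TAU.
PROOF. `Q := pert χ φ`, `V := vol T κ Q` (positive, if `∫ κ det Q = 0` then `κ = 0` on `T`, impossible by `IsPUE.sum`), `W := v - φ -
s`, `A := V⁻¹ ∫ κ det Q τ(W) > 0`, `b := n/(n+1)`, `Λ := 2 + 2 A`, `e₁ := (2 A ((n+1)/n)^n)^(1/(n+1))`, so `e₁^(n+1) = 2 A b^(-n)`,
`(e₁ b)^(n+1) = 2 A b ≤ Λ - 1`. If `max W ≤ 0` take `ψ := φ'` any normalized potential (`φ - max φ`): the right side is `≥ 0`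
(`ψ ≤ v + 1` by `Env.max`). Otherwise `Wm := max W > 0`, `h₁ := (Wm/e₁)^(1/b)`, `B := max |v|`, and `δ > 0` with `δ (h₁ + B) ≤ log 2`.
`AYX` with `β = δ`, `f = log (τ(W)) - log A + ld Q - ld H`: `w` with `det (pert χ w) = exp (δ w) (τ(W)/A) det Q`. `MOMV`: `V = ∫ κ
exp (δ w) (τ(W)/A) det Q ≤ exp (δ max w) V`, so `exp (δ max w) ≥ 1`. `ψ := w - max w`: `det (pert χ ψ) ≥ exp (δ ψ) (τ(W)/A) det Q`.
CLAIM `W ≤ e₁ h^b` on `T`, `h := -ψ + v + Λ ≥ Λ - 1 ≥ 1` (`Env.max` for `ψ`). Let `x` be a maximum of `Φ := W - e₁ h^b` and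
suppose `Φ x > 0`. Then `e₁ h(x)^b < W x ≤ Wm`, `h x ≤ h₁`, `- ψ x = h x - v x - Λ ≤ h₁ + B`, `exp (-δ ψ x) ≤ 2`. `MAXF`:
`- LM Φ x` is positive semidefinite. `CHN` for `F(r) = r^b` on `J = (0, ∞)` (`F' = b r^(b-1)`, `F'' ≤ 0`): `LM (h^b) ≤ b h^(b-1) LM h`
(the matrix `(cd j h conj (cd k h))` is positive semidefinite), so with `c := e₁ b h(x)^(b-1)`, `0 < c ≤ 1` (because
`h^(1/(n+1)) ≥ (Λ-1)^(1/(n+1)) ≥ e₁ b`): `0 ≥ LM Φ ≥ LM v - LM φ - c (LM v - LM ψ) = (1 - c) pert χ v + c pert χ ψ - Q ≥ c pert χ ψ -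
Q`. Take `tr (Q⁻¹ ·)`: `n ≥ c tr (Q⁻¹ pert χ ψ) ≥ c n (det (pert χ ψ)/det Q)^(1/n) ≥ c n (exp (δ ψ) τ(W)/A)^(1/n) ≥ c n (W x/(2A))^(1/n)`
(`TRC`; `τ(W) ≥ W > 0`). So `W x ≤ 2 A c^(-n) = 2 A (e₁ b)^(-n) h^(n/(n+1)) = e₁ h^b` (`c^(-n) = (e₁ b)^(-n) h^(n(1-b))`, `n (1 - b) = b`):
contradiction. Integral inequality: `A V = ∫ κ det Q τ(W) ≤ ∫ κ det Q (max W 0) + η V`. -/
def S_GPT : Prop := ∀ {n : ℕ}, 0 < n → ∀ (T : Set (Cn n)) {G : Type u} [Group G]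
  (R : G → Cn n → Cn n → Prop) (H : Cn n → Matrix (Fin n) (Fin n) ℂ) (a : ℝ)
  (χ : Cn n → Matrix (Fin n) (Fin n) ℂ) (φ v κ : Cn n → ℝ), Chi T R H a χ → IsPUE T R κ →
  Pot T R χ φ → Env T R χ v → ∀ s η : ℝ, 0 < η → ∃ (A : ℝ) (ψ : Cn n → ℝ), 0 < A ∧
  A * vol T κ (pert χ φ) ≤
    (∫ x in T, κ x * (pert χ φ x).det.re * max (v x - φ x - s) 0) + η * vol T κ (pert χ φ) ∧
  NPot T R χ ψ ∧ ∀ x ∈ T, v x - φ x - s ≤
    (2 * A * (((n : ℝ) + 1) / n) ^ n) ^ ((1 : ℝ) / ((n : ℝ) + 1)) *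
      (2 + 2 * A + v x - ψ x) ^ ((n : ℝ) / ((n : ℝ) + 1))

/-! ## Integrability of quasi-plurisubharmonic functions -/

/-- The Laplacian of a function of one complex variable. -/
noncomputable def lap (w : ℂ → ℝ) (z : ℂ) : ℝ :=
  fderiv ℝ (fun y => fderiv ℝ w y 1) z 1 + fderiv ℝ (fun y => fderiv ℝ w y I) z I

/-- SMV1. The mean value inequality for superharmonic functions.
PROOF. For `0 < r ≤ 2` the circle average `M(r)` of `w` satisfies `M(r) ≤ w 0` (derivative `r M'(r) = (2π)⁻¹ ∫_{ball 0 r} Δ w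
≤ 0`; or use the lemmas on `PshOn`, `lev` of Lin for `Cn 1`), and `∫_{ball 0 2} w = ∫_0^2 2 π r M(r) dr`
(`integral_comp_polarCoord_symm` or `Complex.integral_comp_polarCoord_symm`). -/
def S_SMV1 : Prop := ∀ (U : Set ℂ) (w : ℂ → ℝ), IsOpen U → closedBall (0 : ℂ) 2 ⊆ U →
  ContDiffOn ℝ ∞ w U → (∀ z ∈ U, lap w z ≤ 0) →
  ∫ z in ball (0 : ℂ) 2, w z ≤ 4 * Real.pi * w 0

/-- SOB2. The Sobolev inequality in the plane.
PROOF. `MeasureTheory.eLpNorm_le_eLpNorm_fderiv_of_le` with `finrank ℝ ℂ = 2`, `q = 4 p`, exponent `p' = 2 q/(q + 2) < 2`, so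
`1/p' - 1/2 = 1/q`; and Hölder on `ball 0 2`: `‖∇f‖_{p'} ≤ |ball 0 2|^(1/p' - 1/2) ‖∇f‖_2` (the gradient vanishes outside
`closedBall 0 2`). -/
def S_SOB2 : Prop := ∀ p : ℕ, 1 ≤ p → ∃ C : ℝ, 0 ≤ C ∧ ∀ f : ℂ → ℝ, ContDiff ℝ 1 f →
  (∀ z ∉ ball (0 : ℂ) 2, f z = 0) →
  ∫ z, |f z| ^ (4 * p) ≤ C * (∫ z, ‖fderiv ℝ f z‖ ^ 2) ^ (2 * p)

/-- ENG1. The energy estimate. USES: SMV1.
PROOF. Fix a smooth `χ : ℂ → ℝ`, `0 ≤ χ ≤ 1`, `χ = 1` on `ball 0 1`, with compact support in `ball 0 2`. `g := w + m ≥ m > 0`,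
`f := χ g^(1/4)` (extended by `0`). `g^(1/2)`: `lap (g^(1/2)) = (1/2) g^(-1/2) lap g - (1/4) g^(-3/2) |∇g|² ≤ - (1/4) g^(-3/2) |∇g|²`,
where `|∇g|² = (∂_x g)² + (∂_y g)² ≥ ‖fderiv ℝ g‖² ` (operator norm). So `(1/4) ∫ χ² g^(-3/2) |∇g|² ≤ - ∫ χ² lap (g^(1/2)) = - ∫
g^(1/2) lap (χ²) ≤ C ∫_{ball 0 2} g^(1/2)` (integration by parts twice, `χ²` has compact support in `ball 0 2`) `≤ C
(4π)^(1/2) (∫_{ball 0 2} g)^(1/2) ≤ C' m^(1/2)`, since `∫_{ball 0 2} g ≤ 4π (w 0 + m) ≤ 8π m` (`SMV1`). `fderiv f = g^(1/4)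
fderiv χ + (1/4) χ g^(-3/4) fderiv g`, so `∫ ‖fderiv f‖² ≤ 2 ∫ g^(1/2) ‖fderiv χ‖² + (1/8) ∫ χ² g^(-3/2) |∇g|² ≤ C m^(1/2)`. -/
def S_ENG1 : Prop := ∃ C : ℝ, 0 ≤ C ∧ ∀ (U : Set ℂ) (w : ℂ → ℝ), IsOpen U →
  closedBall (0 : ℂ) 2 ⊆ U → ContDiffOn ℝ ∞ w U → (∀ z ∈ U, 0 ≤ w z) →
  (∀ z ∈ U, lap w z ≤ 0) → ∀ m : ℝ, 0 < m → w 0 ≤ m → ∃ f : ℂ → ℝ, ContDiff ℝ 1 f ∧
    (∀ z ∉ ball (0 : ℂ) 2, f z = 0) ∧ (∀ z ∈ ball (0 : ℂ) 1, w z ≤ f z ^ 4) ∧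
    ∫ z, ‖fderiv ℝ f z‖ ^ 2 ≤ C * m ^ ((1 : ℝ) / 2)

/-- LP1. `L^p` bound for nonnegative superharmonic functions in the disc. USES: SOB2, ENG1.
PROOF. For every `m > 0`, `m ≥ w 0`: `∫_{ball 0 1} w^p ≤ ∫ |f|^(4p) ≤ C (∫ ‖fderiv f‖²)^(2p) ≤ C' m^p`; let `m → w 0`
(if `w 0 = 0`; otherwise `m = w 0`). -/
def S_LP1 : Prop := ∀ p : ℕ, 1 ≤ p → ∃ C : ℝ, 0 ≤ C ∧ ∀ (U : Set ℂ) (w : ℂ → ℝ), IsOpen U →
  closedBall (0 : ℂ) 2 ⊆ U → ContDiffOn ℝ ∞ w U → (∀ z ∈ U, 0 ≤ w z) →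
  (∀ z ∈ U, lap w z ≤ 0) → ∫ z in ball (0 : ℂ) 1, w z ^ p ≤ C * w 0 ^ p

/-- LPN. The same in a polydisc (the balls of `Cn n` are polydiscs). USES: LP1.
PROOF. Scaling `x = a + r y` reduces to `a = 0`, `r = 1` (or scale only in `LP1`). Induction on `n`; `n = 0`: `Cn 0` is a point, the
integral is `w a ^ p`. Step: `Fin (n+1) → ℂ ≃ᵐ ℂ × (Fin n → ℂ)` (`MeasurableEquiv.piFinSuccAbove`,
`volume_preserving_piFinSuccAbove`), `ball 0 1 = ball 0 1 ×ˢ ball 0 1`. For fixed `y` in the unit ball of `Cn n`, `|y| ≤ 1`, the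
function `ζ ↦ w (ζ, y)` is smooth, nonnegative near `closedBall 0 2`, `lap = lev w x (Pi.single 0 1) ≤ 0`: `LP1` gives
`∫_{|ζ|<1} w(ζ, y)^p ≤ C w(0, y)^p`; then the induction hypothesis for `y ↦ w (0, y)`. (`w` is continuous and bounded on
the compact closed ball: Fubini.) -/
def S_LPN : Prop := ∀ (n p : ℕ), 1 ≤ p → ∃ C : ℝ, 0 ≤ C ∧ ∀ (a : Cn n) (r : ℝ) (U : Set (Cn n))
  (w : Cn n → ℝ), 0 < r → IsOpen U → closedBall a (2 * r) ⊆ U → ContDiffOn ℝ ∞ w U →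
  (∀ x ∈ U, 0 ≤ w x) → (∀ x ∈ U, ∀ i, lev w x (Pi.single i 1) ≤ 0) →
  ∫ x in ball a r, w x ^ p ≤ C * r ^ (2 * n) * w a ^ p

/-- LPL. The local estimate on `T`. USES: LPN, LMF.
PROOF. Let `r > 0` with `closedBall x₀ (8 r) ⊆ T` and `b ≥ 0` with `a (H x) i i ≤ 4 b` for all `i` on this compact ball (real
parts). For `y ∈ ball x₀ r`: `w(x) := - u x + b (4 n (4 r)² - ∑ i, |x_i - y_i|²)`. On the open ball `ball y (5 r) ⊆ ball x₀ (6 r)`: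
`w ≥ 0` if the constant is `≥ ∑ |x_i - y_i|²`: use `b (n (5 r)^2 - ∑ |x_i - y_i|²)`. `lev` of `∑ |x_i - y_i|²` in the direction
`Pi.single i 1` is `4`; `lev u x (Pi.single i 1) = LM u x i i ≥ - a H x i i ≥ - 4 b`; so `lev w x (Pi.single i 1) ≤ 4 b - 4 b = 0`.
`LPN` with centre `y`, radius `2 r` (`closedBall y (4 r) ⊆ ball y (5 r)`): `∫_{ball x₀ r} (-u)^p ≤ ∫_{ball y (2r)} w'^p`, where on
`ball y (2 r)`, `w ≥ - u ≥ 0`; the bound is `C (2r)^(2n) (- u y + 25 b n r²)^p ≤ C' (1 - u y)^p`. -/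
def S_LPL : Prop := ∀ {n : ℕ} (T : Set (Cn n)) {G : Type u} [Group G]
  (R : G → Cn n → Cn n → Prop) (H : Cn n → Matrix (Fin n) (Fin n) ℂ), KEt T R H →
  ∀ (a : ℝ) (p : ℕ), 1 ≤ p → ∀ x₀ ∈ T, ∃ r > 0, ball x₀ r ⊆ T ∧ ∃ C : ℝ, ∀ w : Cn n → ℝ,
  ContDiffOn ℝ ∞ w T → (∀ x ∈ T, ((a : ℂ) • H x + LM w x).PosSemidef) → (∀ x ∈ T, w x ≤ 0) →
  ∀ r' : ℝ, 0 < r' → r' ≤ r → ∀ y ∈ ball x₀ r', ∫ x in ball x₀ r', (- w x) ^ p ≤ C * (1 - w y) ^ p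

/-- LPQ. `L^p` bounds for quasi-plurisubharmonic functions. USES: LPL, DETI.
PROOF. Suppose not: there are `u_j` as in the statement with `∫ κ det H (-u_j)^p > j`, `u_j (x_j) = 0`. By invariance and
`Et.coc` we may take `x_j ∈ C` compact, and pass to a subsequence with `x_j → x_∞ ∈ T`. `S` := the set of `x ∈ T` that have an
open neighbourhood `U ⊆ T` with `sup_j ∫_U (-u_j)^p < ∞`. `S` is open. `x_∞ ∈ S`: `LPL` at `x_∞` with `y = x_j` (`j` large; the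
finitely many others are bounded on small balls). `T \ S` is open: let `x ∈ T` be in the closure of `S` and `r` from `LPL`;
`ball x r` meets `S` in a point with a neighbourhood `U ⊆ ball x r`, `0 < volume U`, `∫_U (-u_j)^p ≤ B`, so there is `y_j ∈ U` with
`(-u_j y_j)^p ≤ B / volume U`, and `LPL` bounds `∫_{ball x r} (-u_j)^p`; so `x ∈ S`. `S` is invariant (`Et.loc`: local arrows are
diffeomorphisms, change of variables on a small compact neighbourhood, `u_j ∘ τ = u_j`). `Et.conn`: `S = T`. The compact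
set `tsupport κ` is covered by finitely many such `U`, `κ det H` is bounded there: contradiction. -/
def S_LPQ : Prop := ∀ {n : ℕ} (T : Set (Cn n)) {G : Type u} [Group G]
  (R : G → Cn n → Cn n → Prop) (H : Cn n → Matrix (Fin n) (Fin n) ℂ), KEt T R H →
  ∀ κ, IsPUE T R κ → ∀ (a : ℝ) (p : ℕ), 1 ≤ p → ∃ C : ℝ, ∀ w : Cn n → ℝ, InvF T R w →
  (∀ x ∈ T, ((a : ℂ) • H x + LM w x).PosSemidef) → (∀ x ∈ T, w x ≤ 0) → (∃ x ∈ T, w x = 0) →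
  ∫ x in T, κ x * (H x).det.re * (- w x) ^ p ≤ C

/-! ## The upper bound for `v - φ` -/

/-- DEGI. The iteration lemma of De Giorgi.
PROOF. `s_0 := 0`, `s_{j+1} := s_j + 2 C' (m (s_j))^α` with `C' := max C 1`: `m (s_{j+1}) ≤ m (s_j)/2` (if `m (s_j) = 0` use
antitone). So `m (s_j) ≤ 2^(-j)` and `s_j ≤ 2 C' ∑ 2^(-α i) = 2 C'/(1 - 2^(-α)) =: S`. So `m S ≤ m (s_j) ≤ 2^(-j)` for all `j`. -/
def S_DEGI : Prop := ∀ C α : ℝ, 0 < α → ∃ S : ℝ, 0 ≤ S ∧ ∀ m : ℝ → ℝ, (∀ s, 0 ≤ m s ∧ m s ≤ 1) →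
  Antitone m → (∀ s r, 0 ≤ s → 0 < r → r * m (s + r) ≤ C * m s ^ (1 + α)) → m S = 0

/-- HOLS. The integral estimate. USES: KETP, MOMV, GPT, LPQ, TRC.
PROOF. `Q := pert χ φ`, `V := vol T κ Q > 0`, `A0(s) := V⁻¹ ∫ κ det Q max(v - φ - s) 0`, `m s := V⁻¹ ∫_{v - φ > s} κ det Q`. Let `C_p` be
the constant of `LPQ` for the exponent `p` (`NPot ψ` gives `a H + LM ψ ≥ χ + LM ψ > 0`). (0) `A0(s) ≤ A0(0) ≤ V⁻¹ ∫ κ det Q (1 - φ) ≤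
1 + K C_1 =: A1` for `s ≥ 0` (`v ≤ 1`, `φ ≤ 0`, `DensLe`). (1) For `0 < η ≤ 1` let `A, ψ` be as in `GPT`: `A ≤ A0(s) + η ≤ A1 + 1`. On
`{v - φ > s}`: `v - φ - s ≤ c_n A^(1/(n+1)) (2 A1 + 5 - ψ)^(n/(n+1))`. Put `Y := 2 A1 + 5 - ψ ≥ 0` and use Hölder with exponent `q :=
2(n+1)`: `A0(s) ≤ c_n A^(1/(n+1)) V⁻¹ ∫_{v-φ>s} κ det Q Y^(n/(n+1)) ≤ c_n A^(1/(n+1)) (m s)^(1-1/q) (V⁻¹ ∫ κ det Q Y^(2n))^(1/q)` and
`V⁻¹ ∫ κ det Q Y^(2n) ≤ K ∫ κ det H Y^(2n) ≤ K 2^(2n) ((2 A1 + 5)^(2n) ∫ κ det H + C_{2n})`. So `A0 ≤ C (A0 + η)^(1/(n+1)) (m s)^((2n+1)/(2n+2))`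
for all `η ∈ (0, 1]`; `η → 0`; if `A0 > 0` divide: `A0^(n/(n+1)) ≤ C (m s)^((2n+1)/(2n+2))`, so `A0 ≤ C^((n+1)/n) (m s)^(1+1/(2n))`.
(2) `r m (s + r) ≤ A0(s)`: on `{v - φ > s + r}`, `max (v - φ - s) 0 ≥ r`. -/
def S_HOLS : Prop := ∀ {n : ℕ}, 0 < n → ∀ (T : Set (Cn n)) {G : Type u} [Group G]
  (R : G → Cn n → Cn n → Prop) (H : Cn n → Matrix (Fin n) (Fin n) ℂ), KEt T R H →
  ∀ κ, IsPUE T R κ → ∀ a K : ℝ, ∃ C : ℝ, ∀ (χ : Cn n → Matrix (Fin n) (Fin n) ℂ)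
  (φ v : Cn n → ℝ), Chi T R H a χ → NPot T R χ φ → Env T R χ v → DensLe T κ H K (pert χ φ) →
  ∀ s r : ℝ, 0 ≤ s → 0 < r →
  r * ((∫ x in T ∩ {x | s + r < v x - φ x}, κ x * (pert χ φ x).det.re) / vol T κ (pert χ φ)) ≤
    C * ((∫ x in T ∩ {x | s < v x - φ x}, κ x * (pert χ φ x).det.re) /
      vol T κ (pert χ φ)) ^ (1 + 1 / (2 * (n : ℝ)))

/-- UPV. USES: HOLS, DEGI, KETP, TRC.
PROOF. `m s := (∫_{v - φ > s} κ det Q)/V ∈ [0, 1]`, antitone. `DEGI` with `α = 1/(2n)`: `∫_{v - φ > S} κ det Q = 0`. If `v x - φ x > S`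
for some `x ∈ T`, take an arrow from `x` to `y` with `κ y > 0` (`IsPUE.sum`); `v - φ` is invariant, so near `y` we have `κ > 0`,
`v - φ > S`, `det Q > 0`: contradiction. So `v - φ ≤ S`. -/
def S_UPV : Prop := ∀ {n : ℕ}, 0 < n → ∀ (T : Set (Cn n)) {G : Type u} [Group G]
  (R : G → Cn n → Cn n → Prop) (H : Cn n → Matrix (Fin n) (Fin n) ℂ), KEt T R H →
  ∀ κ, IsPUE T R κ → ∀ a K : ℝ, ∃ C : ℝ, ∀ (χ : Cn n → Matrix (Fin n) (Fin n) ℂ)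
  (φ v : Cn n → ℝ), Chi T R H a χ → NPot T R χ φ → Env T R χ v → DensLe T κ H K (pert χ φ) →
  ∀ x ∈ T, v x - φ x ≤ C

/-- CLA. CLAIM A: normalized potentials of the same class with bounded densities are comparable.
USES: VENV, UPV.
PROOF. We may increase `a` so that `a ≥ 1`. `v` from `VENV`. `v - φ_i ≤ C` (`UPV`) and `φ_i ≤ v + 1` (`Env.max`). -/
def S_CLA : Prop := ∀ {n : ℕ}, 0 < n → ∀ (T : Set (Cn n)) {G : Type u} [Group G]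
  (R : G → Cn n → Cn n → Prop) (H : Cn n → Matrix (Fin n) (Fin n) ℂ), KEt T R H →
  ∀ κ, IsPUE T R κ → ∀ a K : ℝ, ∃ C : ℝ, ∀ (χ : Cn n → Matrix (Fin n) (Fin n) ℂ)
  (φ₁ φ₂ : Cn n → ℝ), Chi T R H a χ → NPot T R χ φ₁ → NPot T R χ φ₂ →
  DensLe T κ H K (pert χ φ₁) → DensLe T κ H K (pert χ φ₂) → ∀ x ∈ T, |φ₁ x - φ₂ x| ≤ C

/-- SBG. The bound of `S` by its average. USES: MAXF, TRC, CHN, KETP, MOMV, AYGB, CLA.
PROOF. `χ := pert Q (-φ) = Q - LM φ` is closed, invariant, `≤ a H`. `AYGB` for `Q`, `β = 1`, `f = log S`: `ψ` with `Q' := pert Q ψ`,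
`det Q' = exp ψ S det Q`. MAX: at a maximum `x` of `θ := ψ + log S`: `0 ≥ tr (Q⁻¹ LM θ) ≥ tr (Q⁻¹ (Q' - Q)) - 1 ≥ n (det Q'/det Q)^(1/n) -
n - 1 = n exp (θ/n) - n - 1`, so `exp θ ≤ ((n+1)/n)^n ≤ 3` on `T`: `det Q' ≤ 3 det Q`, so `DensLe` with `3 K` for `Q'` (`vol Q' =
vol Q = V` by `MOMV`). `φ₁ := φ - max φ`, `φ₂ := φ + ψ - max (φ + ψ)` are in `NPot T R χ`, `pert χ φ₁ = Q`, `pert χ φ₂ = Q'` on `T`.
`CLA` (for `a`, `max K (3 K)`): `|ψ - c₀| ≤ C` with `c₀ := max (φ + ψ) - max φ`. `V = vol Q' = ∫ κ det Q exp ψ S ≤ exp (c₀ + C) ∫ κ det Q S`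
and `S ≤ 3 exp (-ψ) ≤ 3 exp (C - c₀)`: `S x V ≤ 3 exp (2 C) ∫ κ det Q S`. -/
def S_SBG : Prop := ∀ {n : ℕ}, 0 < n → ∀ (T : Set (Cn n)) {G : Type u} [Group G]
  (R : G → Cn n → Cn n → Prop) (H : Cn n → Matrix (Fin n) (Fin n) ℂ), KEt T R H →
  ∀ κ, IsPUE T R κ → ∀ a K : ℝ, ∃ C : ℝ, ∀ (Q : Cn n → Matrix (Fin n) (Fin n) ℂ)
  (φ S : Cn n → ℝ), KEt T R Q → InvF T R φ →
  (∀ x ∈ T, ((a : ℂ) • H x - (Q x - LM φ x)).PosSemidef) → DensLe T κ H K Q → InvF T R S →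
  (∀ x ∈ T, 0 < S x) → (∀ x ∈ T, -1 ≤ (trL Q (fun y => Real.log (S y)) x).re) →
  ∀ x ∈ T, S x * vol T κ Q ≤ C * ∫ y in T, κ y * (Q y).det.re * S y

end Pool.Agent.Helper95.HS
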