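import Pool.Agent.Helper10.SP.Asm
import Pool.Agent.Helper19.HS.MAXF
import Pool.Agent.Helper27.HS.TRC
import Pool.Agent.Helper69.HS.CHN
import Pool.Agent.Helper89.HS.CMP
import Pool.Agent.Helper70.HS.KETP
import Pool.Agent.Helper8.HS.MOMV
import Pool.Agent.Helper79.HS.AYGB
import Pool.Agent.Helper90.HS.AYX
import Pool.Agent.Helper94.HS.VENV
import Pool.Agent.Helper46.HS.TAU
import Pool.Agent.Helper97.HS.GPT
import Pool.Agent.Helper46.HS.SMV1
import Pool.Agent.Helper58.HS.SOB2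
import Pool.Agent.Helper84.HS.ENG1
import Pool.Agent.Helper87.HS.LP1
import Pool.Agent.Helper32.HS.LPN
import Pool.Agent.Helper32.HS.LPL
import Pool.Agent.Helper85.HS.LPQ
import Pool.Agent.Helper46.HS.DEGI
import Pool.Agent.Helper31.HS.HOLS
import Pool.Agent.Helper69.HS.UPV
import Pool.Agent.Helper89.HS.CLA
import Pool.Agent.Helper56.HS.SBG
import Pool.Agent.Helper80.HS.MCAL
import Pool.Agent.Helper80.HS.CSY
import Pool.Agent.Helper87.HS.CLG
import Pool.Agent.Helper16.HS.SGN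
import Pool.Agent.Helper70.HS.RHOI
import Pool.Agent.Helper90.HS.RHB
import Pool.Agent.Helper91.HS.LOCB
import Pool.Agent.Helper11.HS.SUBM
import Pool.Agent.Helper7.HS.CRV
import Pool.Agent.Helper79.HS.CLP
import Pool.Agent.Helper16.HS.AAPS
import Pool.Agent.Helper38.HS.SGN
import Pool.Agent.Helper87.HS.DENS
import Pool.Agent.Helper38.HS.RHOB
import Pool.Agent.Helper8.HS.TRI
import Pool.Agent.Helper2.HS.NULL0
import Pool.Agent.Helper32.HS.PARF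
import Pool.Agent.Helper97.HS.MOMP
import Pool.Agent.Helper16.HS.VNB
import Pool.Agent.Helper40.HS.ESGE
import Pool.Agent.Helper87.HS.ALGS
import Pool.Agent.Helper32.HS.SPLITT
import Pool.Agent.Helper97.HS.LOGS
import Pool.Agent.Helper19.HS.ESLE
import Pool.Agent.Helper97.HS.SMALLT
import Pool.Agent.Helper32.HS.POSTT

/-! # HS: assembly of the post-processing part

From the continuity method (`S_AYG`, `S_AYT`) and the degeneration theorem
(`S_COREP`) to the orbifold metric of constant rank (`S_POST`). -/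

set_option linter.style.longLine false

universe u

namespace Pool.Agent.Helper95.HS.Asm

open Pool.Agent.Helper10.SP Pool.Agent.Helper10.SP.Asm

theorem t_MAXF : S_MAXF.{u} := Pool.Agent.Helper19.HS.maxf t_LMF
theorem t_TRC : S_TRC := Pool.Agent.Helper27.HS.trc
theorem t_CHN : S_CHN := Pool.Agent.Helper69.HS.chn t_WIRT
theorem t_CMP : S_CMP.{u} := Pool.Agent.Helper89.HS.cmp
theorem t_KETP : S_KETP.{u} := Pool.Agent.Helper70.HS.ketp t_LMF t_WCH t_DETI t_ARRB t_PUE t_LMID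
theorem t_MOMV : S_MOMV.{u} := Pool.Agent.Helper8.HS.momv t_WIRT t_LMF t_WCH t_DIVC t_KETP
theorem t_TAU : S_TAU := Pool.Agent.Helper46.HS.tau
theorem t_SMV1 : S_SMV1 := Pool.Agent.Helper46.HS.smv1
theorem t_SOB2 : S_SOB2 := Pool.Agent.Helper58.HS.sob2
theorem t_ENG1 : S_ENG1 := Pool.Agent.Helper84.HS.eng1 t_SMV1
theorem t_LP1 : S_LP1 := Pool.Agent.Helper87.HS.lp1 t_SOB2 t_ENG1
theorem t_LPN : S_LPN := Pool.Agent.Helper32.HS.lpn t_LP1
theorem t_LPL : S_LPL.{u} := Pool.Agent.Helper32.HS.lpl t_LPN t_LMF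
theorem t_LPQ : S_LPQ.{u} := Pool.Agent.Helper85.HS.lpq t_LPL t_DETI
theorem t_DEGI : S_DEGI := Pool.Agent.Helper46.HS.degi
theorem t_MCAL : Pool.Agent.Helper15.HS.S_MCAL := Pool.Agent.Helper80.HS.mcal t_WIRT
theorem t_CSY : Pool.Agent.Helper15.HS.S_CSY := Pool.Agent.Helper80.HS.csy t_WIRT t_MCAL
theorem t_CLG : Pool.Agent.Helper15.HS.S_CLG := Pool.Agent.Helper87.HS.clg t_WIRT t_MCAL t_CSY
theorem t_SGNC : Pool.Agent.Helper15.HS.S_SGN := Pool.Agent.Helper16.HS.SGNP.sgn t_CSY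
theorem t_RHOI : Pool.Agent.Helper15.HS.S_RHOI.{u} :=
  Pool.Agent.Helper70.HS.rhoi t_WIRT t_WCH t_LMF t_ARRB t_MCAL
theorem t_RHB : Pool.Agent.Helper15.HS.S_RHB.{u} := Pool.Agent.Helper90.HS.rhb
theorem t_LOCB : Pool.Agent.Helper15.HS.S_LOCB.{u} := Pool.Agent.Helper91.HS.locb t_ARRB t_DETI
theorem t_SUBM : Pool.Agent.Helper15.HS.S_SUBM := Pool.Agent.Helper11.HS.subm
theorem t_CRV : S_CRV := Pool.Agent.Helper7.HS.crv t_MCAL t_CSY t_LMF
theorem t_CLP : S_CLP := Pool.Agent.Helper79.HS.clp t_CRV t_CLG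
theorem t_AAPS : S_AAPS := Pool.Agent.Helper16.HS.aaps
theorem t_SGN : S_SGN := Pool.Agent.Helper38.HS.sgn t_SGNC
theorem t_DENS : S_DENS.{u} := Pool.Agent.Helper87.HS.dens t_LMF t_DETI t_KETP t_LOCB t_SUBM
theorem t_RHOB : S_RHOB.{u} := Pool.Agent.Helper38.HS.rhob t_RHOI t_RHB
theorem t_TRI : S_TRI.{u} := Pool.Agent.Helper8.HS.tri t_ARRB t_DETI t_LMID
theorem t_NULL0 : S_NULL0.{u} := Pool.Agent.Helper2.HS.null0
theorem t_PARF : S_PARF.{u} := Pool.Agent.Helper32.HS.parf t_CRV t_KETP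
theorem t_MOMP : S_MOMP.{u} :=
  Pool.Agent.Helper97.HS.momp t_PARF t_MOMV t_KETP t_CRV t_RHOB t_WIRT t_DETI
theorem t_VNB : S_VNB.{u} := Pool.Agent.Helper16.HS.vnb t_PARF t_DETI t_LMF
theorem t_ESGE : S_ESGE.{u} := Pool.Agent.Helper40.HS.esge t_PARF t_MOMP t_TRC t_TRI t_NULL0
theorem t_ALGS : S_ALGS := Pool.Agent.Helper87.HS.algs
theorem t_SPLITT : S_SPLITT.{u} :=
  Pool.Agent.Helper32.HS.splitt t_PUE t_PARF t_CLP t_AAPS t_ALGS t_ESGE t_TRI t_NULL0 t_KETP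
theorem t_LOGS : S_LOGS.{u} :=
  Pool.Agent.Helper97.HS.logs t_PARF t_CLP t_AAPS t_SGN t_CHN t_TRI t_TRC
theorem t_ESLE : S_ESLE.{u} := Pool.Agent.Helper19.HS.esle t_PARF t_MOMP t_VNB t_TRC t_DETI

/-- The split of the degenerate metric. -/
theorem split : Pool.Agent.Helper57.HS.S_SPLIT.{u} := t_SPLITT

section AYG

variable (hAYG : Pool.Agent.Helper57.HS.S_AYG.{u})

include hAYG

theorem t_AYGB : S_AYGB.{u} := Pool.Agent.Helper79.HS.aygb hAYG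
theorem t_AYX : S_AYX.{u} := Pool.Agent.Helper90.HS.ayx t_WIRT (t_AYGB hAYG) t_KETP
theorem t_VENV : S_VENV.{u} :=
  Pool.Agent.Helper94.HS.venv t_WIRT t_MAXF t_TRC t_CMP t_KETP (t_AYX hAYG)
theorem t_GPT : S_GPT.{u} :=
  Pool.Agent.Helper97.HS.gpt t_MAXF t_TRC t_CHN t_KETP t_MOMV (t_AYX hAYG) t_TAU t_WIRT
theorem t_HOLS : S_HOLS.{u} := Pool.Agent.Helper31.HS.hols t_KETP (t_GPT hAYG) t_LPQ
theorem t_UPV : S_UPV.{u} := Pool.Agent.Helper69.HS.upv (t_HOLS hAYG) t_DEGI t_KETP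
theorem t_CLA : S_CLA.{u} := Pool.Agent.Helper89.HS.cla (t_VENV hAYG) (t_UPV hAYG)
theorem t_SBG : S_SBG.{u} :=
  Pool.Agent.Helper56.HS.sbg t_WIRT t_MAXF t_TRC t_KETP t_MOMV (t_AYGB hAYG) (t_CLA hAYG)

end AYG

theorem t_SMALLT (hAYG : Pool.Agent.Helper57.HS.S_AYG.{u}) (hAYT : Pool.Agent.Helper57.HS.S_AYT.{u}) :
    S_SMALLT.{u} :=
  Pool.Agent.Helper97.HS.smallt hAYT t_PUE t_PARF (t_SBG hAYG) t_DENS t_RHOB t_LOGS t_ESLE
    t_NULL0 t_KETP t_TRC t_WIRT t_DETI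

/-- The smallness statement. -/
theorem small (hAYG : Pool.Agent.Helper57.HS.S_AYG.{u}) (hAYT : Pool.Agent.Helper57.HS.S_AYT.{u}) :
    Pool.Agent.Helper57.HS.S_SMALL.{u} := t_SMALLT hAYG hAYT

/-- The post-processing theorem. -/
theorem post (hAYG : Pool.Agent.Helper57.HS.S_AYG.{u}) (hAYT : Pool.Agent.Helper57.HS.S_AYT.{u})
    (hCOREP : Pool.Agent.Helper57.HS.S_COREP.{u}) : Pool.Agent.Helper57.HS.S_POST.{u} :=
  Pool.Agent.Helper32.HS.postt hAYT hCOREP t_PARF t_SPLITT (t_SMALLT hAYG hAYT) t_LMF t_DETI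

end Pool.Agent.Helper95.HS.Asm
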