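import Pool.Agent.Helper57.HS.Defs

/-!
# HS: definitions for the bounds (potentials in a fixed class)

`χ` is a smooth invariant closed Hermitian form field, `Pot T R χ u` says that `u` is invariant, smooth and
`χ + LM u` is positive definite. Paper proof: `Pool/Agent/Helper95/HS/paper.md`. Conventions of
`Helper57/HS/Defs.lean`.
-/

open Complex Metric Set Filter Topology MeasureTheory
open scoped ContDiff ComplexConjugate ComplexOrder Manifold Matrix

namespace Pool.Agent.Helper95.HS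

open Pool.Agent.Helper95.Lin Pool.Agent.Helper16.Abund Pool.Agent.Helper10.SP
  Pool.Agent.Helper57.HS

universe u v

/-- The field `Y + LM u`. -/
noncomputable def pert {n : ℕ} (Y : Cn n → Matrix (Fin n) (Fin n) ℂ) (u : Cn n → ℝ) (x : Cn n) :
    Matrix (Fin n) (Fin n) ℂ := Y x + LM u x

/-- `u` is a smooth invariant function and `χ + LM u` is positive definite. -/
structure Pot {n : ℕ} (T : Set (Cn n)) {G : Type u} (R : G → Cn n → Cn n → Prop)
    (χ : Cn n → Matrix (Fin n) (Fin n) ℂ) (u : Cn n → ℝ) : Prop where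
  inv : InvF T R u
  pos : ∀ x ∈ T, (pert χ u x).PosDef

/-- `χ ≤ a H` is a closed invariant Hermitian form field. -/
structure Chi {n : ℕ} (T : Set (Cn n)) {G : Type u} [Group G] (R : G → Cn n → Cn n → Prop)
    (H : Cn n → Matrix (Fin n) (Fin n) ℂ) (a : ℝ) (χ : Cn n → Matrix (Fin n) (Fin n) ℂ) :
    Prop where
  ket : KEt T R H
  chf : CHF χ T
  inv : InvH R χ
  le : ∀ x ∈ T, ((a : ℂ) • H x - χ x).PosSemidef

/-- The volume `∫ det Q` of the metric `Q` (with the partition function `κ`). -/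
noncomputable def vol {n : ℕ} (T : Set (Cn n)) (κ : Cn n → ℝ)
    (Q : Cn n → Matrix (Fin n) (Fin n) ℂ) : ℝ := ∫ x in T, κ x * (Q x).det.re

/-- `v` is, up to the constant `1`, the largest nonpositive potential. -/
structure Env {n : ℕ} (T : Set (Cn n)) {G : Type u} (R : G → Cn n → Cn n → Prop)
    (χ : Cn n → Matrix (Fin n) (Fin n) ℂ) (v : Cn n → ℝ) : Prop where
  pot : Pot T R χ v
  le : ∀ x ∈ T, v x ≤ 1
  max : ∀ ψ, Pot T R χ ψ → (∀ x ∈ T, ψ x ≤ 0) → ∀ x ∈ T, ψ x ≤ v x + 1

/-- `φ` is a potential with maximum `0`. -/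
structure NPot {n : ℕ} (T : Set (Cn n)) {G : Type u} (R : G → Cn n → Cn n → Prop)
    (χ : Cn n → Matrix (Fin n) (Fin n) ℂ) (φ : Cn n → ℝ) : Prop where
  pot : Pot T R χ φ
  le : ∀ x ∈ T, φ x ≤ 0
  eq : ∃ x ∈ T, φ x = 0

/-- The density of `χ + LM φ` with respect to `H`, divided by the total volume, is at most `K`. -/
def DensLe {n : ℕ} (T : Set (Cn n)) (κ : Cn n → ℝ) (H : Cn n → Matrix (Fin n) (Fin n) ℂ) (K : ℝ)
    (Q : Cn n → Matrix (Fin n) (Fin n) ℂ) : Prop :=
  ∀ x ∈ T, (Q x).det.re ≤ K * vol T κ Q * (H x).det.re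

end Pool.Agent.Helper95.HS
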